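import Pool.Agent.Run7.h308.T.Bas

/-!
Periodic time-dependent fields: energy conservation and uniqueness for the Euler equations.
-/

set_option autoImplicit false

open Set Filter Topology MeasureTheory
open scoped ContDiff

namespace Pool.Agent.Run7.h308.T

open Pool.Agent.Run7.h407 Pool.Agent.Run7.h407.G

theorem box_bound {T b : ℝ} (hb : b < T) {G : ℝ × V → ℝ}
    (hG : ContinuousOn G (Ico 0 T ×ˢ univ)) :
    ∃ C : ℝ, 0 ≤ C ∧ ∀ t ∈ Icc 0 b, ∀ x ∈ box, |G (t, x)| ≤ C := by
  have hK : IsCompact (Icc 0 b ×ˢ box) := isCompact_Icc.prod box_compact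
  obtain ⟨C, hC⟩ := hK.exists_bound_of_continuousOn (hG.mono (by
    rintro ⟨r, y⟩ ⟨hr, _⟩
    exact ⟨⟨hr.1, hr.2.trans_lt hb⟩, mem_univ _⟩))
  exact ⟨max C 0, le_max_right _ _, fun t ht x hx => (hC (t, x) ⟨ht, hx⟩).trans (le_max_left _ _)⟩

theorem slice_cont {T : ℝ} {G : ℝ × V → ℝ} (hG : ContinuousOn G (Ico 0 T ×ˢ univ)) {t : ℝ}
    (ht : t ∈ Ico 0 T) : Continuous fun x => G (t, x) := by
  rw [← continuousOn_univ]
  exact hG.comp (f := fun x : V => (t, x)) (by fun_prop) fun x _ => ⟨ht, mem_univ _⟩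

theorem const_int (C : ℝ) : Integrable (fun _ : V => C) (volume.restrict cube) :=
  int_cube continuous_const

theorem par_cont {T : ℝ} {F : ℝ × V → ℝ} (hF : ContinuousOn F (Ico 0 T ×ˢ univ)) :
    ContinuousOn (fun t => ∫ x in cube, F (t, x)) (Ico 0 T) := by
  intro t₀ ht₀
  obtain ⟨b, hb1, hb2⟩ := exists_between ht₀.2
  obtain ⟨C, -, hC⟩ := box_bound hb2 hF
  refine continuousWithinAt_of_dominated (bound := fun _ => C) ?_ ?_ (const_int C) ?_
  · filter_upwards [self_mem_nhdsWithin] with t ht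
    exact (slice_cont hF ht).aestronglyMeasurable
  · filter_upwards [self_mem_nhdsWithin, mem_nhdsWithin_of_mem_nhds (Iio_mem_nhds hb1)]
      with t ht htb
    refine (ae_restrict_iff' cube_meas).2 (ae_of_all _ fun x hx => ?_)
    exact hC t ⟨ht.1, (mem_Iio.1 htb).le⟩ x (cube_sub hx)
  · refine ae_of_all _ fun x => ?_
    exact (hF.comp (f := fun s : ℝ => (s, x)) (by fun_prop) fun s hs => ⟨hs, mem_univ _⟩) t₀ ht₀

theorem par_deriv {T : ℝ} {F F' : ℝ × V → ℝ} (hF : ContinuousOn F (Ico 0 T ×ˢ univ))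
    (hF' : ContinuousOn F' (Ico 0 T ×ˢ univ))
    (hd : ∀ t ∈ Ioo 0 T, ∀ x, HasDerivAt (fun s => F (s, x)) (F' (t, x)) t) {t : ℝ}
    (ht : t ∈ Ioo 0 T) :
    HasDerivAt (fun t => ∫ x in cube, F (t, x)) (∫ x in cube, F' (t, x)) t := by
  obtain ⟨b, hb1, hb2⟩ := exists_between ht.2
  obtain ⟨C, -, hC⟩ := box_bound hb2 hF'
  refine (hasDerivAt_integral_of_dominated_loc_of_deriv_le (bound := fun _ => C)
    (F := fun t x => F (t, x)) (F' := fun t x => F' (t, x)) (s := Ioo 0 b)
    (Ioo_mem_nhds ht.1 hb1) ?_ ?_ ?_ ?_ (const_int C) ?_).2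
  · filter_upwards [Ioo_mem_nhds ht.1 hb1] with s hs
    exact (slice_cont hF ⟨hs.1.le, hs.2.trans hb2⟩).aestronglyMeasurable
  · exact int_cube (slice_cont hF ⟨ht.1.le, ht.2⟩)
  · exact (slice_cont hF' ⟨ht.1.le, ht.2⟩).aestronglyMeasurable
  · refine (ae_restrict_iff' cube_meas).2 (ae_of_all _ fun x hx s hs => ?_)
    exact hC s ⟨hs.1.le, hs.2.le⟩ x (cube_sub hx)
  · exact ae_of_all _ fun x s hs => hd s ⟨hs.1, hs.2.trans hb2⟩ x

/-- The derivative in space and time. -/
noncomputable def FD (T : ℝ) (w : ℝ → V → V) (z : ℝ × V) : ℝ × V →L[ℝ] V :=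
  fderivWithin ℝ (fun z : ℝ × V => w z.1 z.2) (Ico 0 T ×ˢ univ) z

section field

variable {T : ℝ} {w u : ℝ → V → V}

theorem fd_cont (h : C1T T w) : ContinuousOn (FD T w) (Ico 0 T ×ˢ univ) :=
  h.sm.continuousOn_fderivWithin ((uniqueDiffOn_Ico 0 T).prod uniqueDiffOn_univ) le_rfl

theorem fd_has (h : C1T T w) {z : ℝ × V} (hz : z ∈ Ico 0 T ×ˢ (univ : Set V)) :
    HasFDerivWithinAt (fun z : ℝ × V => w z.1 z.2) (FD T w z) (Ico 0 T ×ˢ univ) z :=
  ((h.sm z hz).differentiableWithinAt one_ne_zero).hasFDerivWithinAt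

theorem fdv_cont (h : C1T T w) (v : ℝ × V) (i : Fin 3) :
    ContinuousOn (fun z : ℝ × V => FD T w z v i) (Ico 0 T ×ˢ univ) :=
  (continuous_apply i).comp_continuousOn ((fd_cont h).clm_apply continuousOn_const)

theorem co_cont (h : C1T T w) (i : Fin 3) :
    ContinuousOn (fun z : ℝ × V => w z.1 z.2 i) (Ico 0 T ×ˢ univ) :=
  (continuous_apply i).comp_continuousOn h.sm.continuousOn

theorem slice_c1 (h : C1T T w) {t : ℝ} (ht : t ∈ Ico 0 T) : ContDiff ℝ 1 (w t) := by
  rw [← contDiffOn_univ]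
  have h1 : ContDiffOn ℝ 1 (fun x : V => (t, x)) univ :=
    (contDiff_const.prodMk contDiff_id).contDiffOn
  exact h.sm.comp h1 (fun x _ => ⟨ht, mem_univ _⟩)

theorem time_deriv (h : C1T T w) {t : ℝ} (ht : t ∈ Ioo 0 T) (x : V) (i : Fin 3) :
    HasDerivAt (fun s => w s x i) (FD T w (t, x) (1, 0) i) t := by
  have hn : Ico 0 T ×ˢ (univ : Set V) ∈ 𝓝 (t, x) :=
    prod_mem_nhds (Ico_mem_nhds ht.1 ht.2) univ_mem
  have h1 : HasFDerivAt (fun z : ℝ × V => w z.1 z.2) (FD T w (t, x)) (t, x) :=
    (fd_has h ⟨⟨ht.1.le, ht.2⟩, mem_univ _⟩).hasFDerivAt hn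
  have h2 : HasDerivAt (fun s : ℝ => (s, x)) ((1 : ℝ), (0 : V)) t :=
    (hasDerivAt_id t).prodMk (hasDerivAt_const t x)
  have h3 := h1.comp_hasDerivAt t h2
  exact (hasDerivAt_pi.1 h3) i

theorem space_deriv (h : C1T T w) {t : ℝ} (ht : t ∈ Ico 0 T) (x : V) (i j : Fin 3) :
    pd j (fun y => w t y i) x = FD T w (t, x) (0, Pi.single j 1) i := by
  have h2 : HasFDerivAt (fun y : V => (t, y)) (ContinuousLinearMap.inr ℝ ℝ V) x :=
    hasFDerivAt_prodMk_right t x
  have h3 : HasFDerivAt (fun y => w t y) ((FD T w (t, x)).comp (ContinuousLinearMap.inr ℝ ℝ V)) x := by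
    rw [← hasFDerivWithinAt_univ]
    exact (fd_has h ⟨ht, mem_univ _⟩).comp x h2.hasFDerivWithinAt fun y _ => ⟨ht, mem_univ _⟩
  have h4 : HasFDerivAt (fun y => w t y i) _ x := (hasFDerivAt_pi'.1 h3) i
  unfold pd
  rw [h4.fderiv]
  simp

theorem sub_c1 (hw : C1T T w) (hu : C1T T u) : C1T T fun t x => w t x - u t x where
  sm := hw.sm.sub hu.sm
  per := fun t ht x k => by
    show w t _ - u t _ = w t x - u t x
    rw [hw.per t ht x k, hu.per t ht x k]

end field

/-- The advection term of a solenoidal field does no work. -/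
theorem adv_zero {v d : V → V} (hv : ContDiff ℝ 1 v) (pv : Per v) (hd : ContDiff ℝ 1 d)
    (pd' : Per d) (hdiv : ∀ x, dvg v x = 0) :
    ∫ x in cube, ∑ i, (∑ j, v x j * pd j (fun y => d y i) x) * d x i = 0 := by
  have hφ : ContDiff ℝ 1 fun x => ∑ i, d x i * d x i :=
    ContDiff.sum fun i _ => (c1_comp hd i).mul (c1_comp hd i)
  have pφ : Per fun x => ∑ i, d x i * d x i := fun x k =>
    Finset.sum_congr rfl fun i _ => by rw [show d (fun i => x i + 2 * Real.pi * k i) = d x from pd' x k]
  have h := grad_dvg hv pv hφ pφ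
  simp only [hdiv, zero_mul, integral_zero, neg_zero] at h
  have e : ∀ x, ∑ j, v x j * pd j (fun x => ∑ i, d x i * d x i) x
      = 2 * ∑ i, (∑ j, v x j * pd j (fun y => d y i) x) * d x i := by
    intro x
    have e1 : ∀ j, pd j (fun x => ∑ i, d x i * d x i) x
        = ∑ i, 2 * (pd j (fun y => d y i) x * d x i) := by
      intro j
      rw [pd_sum (fun i _ => (c1_diff ((c1_comp hd i).mul (c1_comp hd i)) x)) j]
      refine Finset.sum_congr rfl fun i _ => ?_
      rw [pd_mul (c1_diff (c1_comp hd i) x) (c1_diff (c1_comp hd i) x)]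
      ring
    simp_rw [e1, Finset.mul_sum, Finset.sum_mul]
    rw [Finset.sum_comm]
    simp_rw [Finset.mul_sum]
    refine Finset.sum_congr rfl fun i _ => Finset.sum_congr rfl fun j _ => ?_
    ring
  simp_rw [e] at h
  rw [integral_const_mul] at h
  linarith

section energy

variable {T : ℝ} {w u : ℝ → V → V}

theorem res_cont (h : C1T T w) {t : ℝ} (ht : t ∈ Ioo 0 T) (i : Fin 3) :
    Continuous fun x => resE w t x i := by
  have ht' : t ∈ Ico 0 T := ⟨ht.1.le, ht.2⟩
  have e : (fun x => resE w t x i)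
      = fun x => FD T w (t, x) (1, 0) i + ∑ j, w t x j * pd j (fun y => w t y i) x := by
    funext x
    unfold resE
    rw [(time_deriv h ht x i).deriv]
  rw [e]
  refine (slice_cont (fdv_cont h (1, 0) i) ht').add (continuous_finsetSum _ fun j _ => ?_)
  exact (c1_comp (slice_c1 h ht') j).continuous.mul (cont_pd (c1_comp (slice_c1 h ht') i) j)

/-- The energy of `w - u` and its derivative. -/
theorem en (hw : C1T T w) :
    ContinuousOn (fun t => ipT (w t) (w t)) (Ico 0 T) ∧ ∀ t ∈ Ioo 0 T,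
      HasDerivAt (fun t => ipT (w t) (w t))
        (2 * ∫ x in cube, ∑ i, FD T w (t, x) (1, 0) i * w t x i) t := by
  have hF : ContinuousOn (fun z : ℝ × V => ∑ i, w z.1 z.2 i * w z.1 z.2 i) (Ico 0 T ×ˢ univ) :=
    continuousOn_finsetSum _ fun i _ => (co_cont hw i).mul (co_cont hw i)
  have hF' : ContinuousOn (fun z : ℝ × V => ∑ i, (FD T w z (1, 0) i * w z.1 z.2 i
      + w z.1 z.2 i * FD T w z (1, 0) i)) (Ico 0 T ×ˢ univ) :=
    continuousOn_finsetSum _ fun i _ => ((fdv_cont hw (1, 0) i).mul (co_cont hw i)).add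
      ((co_cont hw i).mul (fdv_cont hw (1, 0) i))
  refine ⟨par_cont hF, fun t ht => ?_⟩
  have h := par_deriv hF hF' (fun s hs x => HasDerivAt.fun_sum fun i _ =>
    (time_deriv hw hs x i).mul (time_deriv hw hs x i)) ht
  have e : 2 * ∫ x in cube, ∑ i, FD T w (t, x) (1, 0) i * w t x i
      = ∫ x in cube, ∑ i, (FD T w (t, x) (1, 0) i * w t x i
      + w t x i * FD T w (t, x) (1, 0) i) := by
    rw [← integral_const_mul]
    congr 1
    funext x
    rw [Finset.mul_sum]
    refine Finset.sum_congr rfl fun i _ => ?_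
    ring
  rw [e]
  exact h

/-- **TE.** -/
theorem te : StmTE := by
  intro T w hw hdiv hres t ht
  obtain ⟨hc, hd⟩ := en hw
  have hz : ∀ s ∈ Ioo 0 T, HasDerivAt (fun t => ipT (w t) (w t)) 0 s := by
    intro s hs
    have hs' : s ∈ Ico 0 T := ⟨hs.1.le, hs.2⟩
    have h1 := hd s hs
    have h2 := adv_zero (slice_c1 hw hs') (hw.per s hs') (slice_c1 hw hs') (hw.per s hs')
      (hdiv s hs)
    have h3 := hres s hs
    have i1 : Integrable (fun x => ∑ i, FD T w (s, x) (1, 0) i * w s x i)
        (volume.restrict cube) := int_cube (continuous_finsetSum _ fun i _ =>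
      (slice_cont (fdv_cont hw (1, 0) i) hs').mul (c1_comp (slice_c1 hw hs') i).continuous)
    have i2 : Integrable (fun x => ∑ i, (∑ j, w s x j * pd j (fun y => w s y i) x) * w s x i)
        (volume.restrict cube) := int_cube (continuous_finsetSum _ fun i _ =>
      (continuous_finsetSum _ fun j _ => (c1_comp (slice_c1 hw hs') j).continuous.mul
        (cont_pd (c1_comp (slice_c1 hw hs') i) j)).mul (c1_comp (slice_c1 hw hs') i).continuous)
    have e : ∀ x, ∑ i, resE w s x i * w s x i
        = (∑ i, FD T w (s, x) (1, 0) i * w s x i)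
          + ∑ i, (∑ j, w s x j * pd j (fun y => w s y i) x) * w s x i := by
      intro x
      rw [← Finset.sum_add_distrib]
      refine Finset.sum_congr rfl fun i _ => ?_
      unfold resE
      rw [(time_deriv hw hs x i).deriv, add_mul]
    simp_rw [e] at h3
    rw [integral_add i1 i2, h2, add_zero] at h3
    rw [h3, mul_zero] at h1
    exact h1
  have hsub : Icc 0 t ⊆ Ico 0 T := fun s hs => ⟨hs.1, hs.2.trans_lt ht.2⟩
  have hint : ∀ s ∈ interior (Icc 0 t), s ∈ Ioo 0 T := by
    intro s hs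
    rw [interior_Icc] at hs
    exact ⟨hs.1, hs.2.trans ht.2⟩
  have h1 := antitoneOn_of_deriv_nonpos (convex_Icc 0 t) (hc.mono hsub)
    (fun s hs => (hz s (hint s hs)).differentiableAt.differentiableWithinAt)
    (fun s hs => (hz s (hint s hs)).deriv.le)
  have h2 := monotoneOn_of_deriv_nonneg (convex_Icc 0 t) (hc.mono hsub)
    (fun s hs => (hz s (hint s hs)).differentiableAt.differentiableWithinAt)
    (fun s hs => (hz s (hint s hs)).deriv.ge)
  exact le_antisymm (h1 ⟨le_rfl, ht.1⟩ ⟨ht.1, le_rfl⟩ ht.1)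
    (h2 ⟨le_rfl, ht.1⟩ ⟨ht.1, le_rfl⟩ ht.1)

/-- **TU.** -/
theorem tu : StmTU := by
  intro T w u hw hu h0 hdiv hrw hru b hb
  set d : ℝ → V → V := fun t x => w t x - u t x with hd'
  have hdC : C1T T d := sub_c1 hw hu
  obtain ⟨hc, hd⟩ := en hdC
  -- the bound of the gradient of `u`
  have hG : ∃ G : ℝ, 0 ≤ G ∧ ∀ t ∈ Icc 0 b, ∀ x ∈ box, ∀ i j,
      |pd j (fun y => u t y i) x| ≤ G := by
    have h1 : ∀ i j : Fin 3, ∃ C : ℝ, 0 ≤ C ∧ ∀ t ∈ Icc 0 b, ∀ x ∈ box,
        |FD T u (t, x) (0, Pi.single j 1) i| ≤ C := fun i j =>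
      box_bound hb.2 (fdv_cont hu (0, Pi.single j 1) i)
    choose C hC0 hC using h1
    refine ⟨∑ i, ∑ j, C i j, Finset.sum_nonneg fun i _ => Finset.sum_nonneg fun j _ => hC0 i j,
      fun t ht x hx i j => ?_⟩
    rw [space_deriv hu ⟨ht.1, ht.2.trans_lt hb.2⟩]
    refine (hC i j t ht x hx).trans ?_
    have h2 := Finset.single_le_sum (f := fun j => C i j) (fun j _ => hC0 i j) (Finset.mem_univ j)
    have h3 := Finset.single_le_sum (f := fun i => ∑ j, C i j)
      (fun i _ => Finset.sum_nonneg fun j _ => hC0 i j) (Finset.mem_univ i)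
    exact h2.trans h3
  obtain ⟨G, hG0, hG⟩ := hG
  have hy0 : ipT (d 0) (d 0) = 0 := by
    unfold ipT
    have : ∀ x, ∑ i, d 0 x i * d 0 x i = 0 := by
      intro x
      refine Finset.sum_eq_zero fun i _ => ?_
      have : d 0 x = 0 := by rw [hd']; simp only; rw [h0, sub_self]
      rw [this]
      simp
    simp only [this, integral_zero]
  -- the balance
  have hbal : ∀ s ∈ Ioo 0 T, s ≤ b →
      2 * ∫ x in cube, ∑ i, FD T d (s, x) (1, 0) i * d s x i ≤ 6 * G * ipT (d s) (d s) := by
    intro s hs hsb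
    have hs' : s ∈ Ico 0 T := ⟨hs.1.le, hs.2⟩
    have cw := slice_c1 hw hs'
    have cu := slice_c1 hu hs'
    have cd := slice_c1 hdC hs'
    have h2 := adv_zero cw (hw.per s hs') cd (hdC.per s hs') (hdiv s hs)
    have iw : Integrable (fun x => ∑ i, resE w s x i * (w s x - u s x) i)
        (volume.restrict cube) := int_cube (continuous_finsetSum _ fun i _ =>
      (res_cont hw hs i).mul (c1_comp cd i).continuous)
    have iu : Integrable (fun x => ∑ i, resE u s x i * (w s x - u s x) i)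
        (volume.restrict cube) := int_cube (continuous_finsetSum _ fun i _ =>
      (res_cont hu hs i).mul (c1_comp cd i).continuous)
    have i2 : Integrable (fun x => ∑ i, (∑ j, w s x j * pd j (fun y => d s y i) x) * d s x i)
        (volume.restrict cube) := int_cube (continuous_finsetSum _ fun i _ =>
      (continuous_finsetSum _ fun j _ => (c1_comp cw j).continuous.mul
        (cont_pd (c1_comp cd i) j)).mul (c1_comp cd i).continuous)
    have i3 : Integrable (fun x => ∑ i, (∑ j, d s x j * pd j (fun y => u s y i) x) * d s x i)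
        (volume.restrict cube) := int_cube (continuous_finsetSum _ fun i _ =>
      (continuous_finsetSum _ fun j _ => (c1_comp cd j).continuous.mul
        (cont_pd (c1_comp cu i) j)).mul (c1_comp cd i).continuous)
    have i4 : Integrable (fun x => ∑ i, d s x i * d s x i) (volume.restrict cube) :=
      int_cube (continuous_finsetSum _ fun i _ =>
        (c1_comp cd i).continuous.mul (c1_comp cd i).continuous)
    have e : ∀ x, ∑ i, FD T d (s, x) (1, 0) i * d s x i
        = (∑ i, resE w s x i * (w s x - u s x) i) - (∑ i, resE u s x i * (w s x - u s x) i)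
          - (∑ i, (∑ j, w s x j * pd j (fun y => d s y i) x) * d s x i)
          - ∑ i, (∑ j, d s x j * pd j (fun y => u s y i) x) * d s x i := by
      intro x
      rw [← Finset.sum_sub_distrib, ← Finset.sum_sub_distrib, ← Finset.sum_sub_distrib]
      refine Finset.sum_congr rfl fun i _ => ?_
      have q1 : FD T d (s, x) (1, 0) i
          = deriv (fun r => w r x i) s - deriv (fun r => u r x i) s := by
        rw [← (time_deriv hdC hs x i).deriv]
        exact deriv_fun_sub (time_deriv hw hs x i).differentiableAt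
          (time_deriv hu hs x i).differentiableAt
      have q2 : ∀ j, pd j (fun y => d s y i) x
          = pd j (fun y => w s y i) x - pd j (fun y => u s y i) x := fun j =>
        pd_sub (c1_diff (c1_comp cw i) x) (c1_diff (c1_comp cu i) x) j
      have q3 : ∀ i, (w s x - u s x) i = w s x i - u s x i := fun i => rfl
      have q4 : ∀ i, d s x i = w s x i - u s x i := fun i => rfl
      unfold resE
      rw [q1]
      simp only [q2, q3, q4, Fin.sum_univ_three]
      ring
    have h5 : ∫ x in cube, ∑ i, FD T d (s, x) (1, 0) i * d s x i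
        = -∫ x in cube, ∑ i, (∑ j, d s x j * pd j (fun y => u s y i) x) * d s x i := by
      simp_rw [e]
      have j1 : Integrable (fun x => (∑ i, resE w s x i * (w s x - u s x) i)
          - ∑ i, resE u s x i * (w s x - u s x) i) (volume.restrict cube) := iw.sub iu
      have j2 : Integrable (fun x => (∑ i, resE w s x i * (w s x - u s x) i)
          - (∑ i, resE u s x i * (w s x - u s x) i)
          - ∑ i, (∑ j, w s x j * pd j (fun y => d s y i) x) * d s x i)
          (volume.restrict cube) := j1.sub i2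
      rw [integral_sub j2 i3, integral_sub j1 i2, integral_sub iw iu,
        hrw s hs, hru s hs, h2]
      ring
    rw [h5]
    have h6 : -∫ x in cube, ∑ i, (∑ j, d s x j * pd j (fun y => u s y i) x) * d s x i
        ≤ 3 * G * ipT (d s) (d s) := by
      rw [← integral_neg]
      unfold ipT
      rw [← integral_const_mul]
      refine setIntegral_mono_on i3.neg (i4.const_mul _) cube_meas fun x hx => ?_
      have hb' : ∀ i j, |pd j (fun y => u s y i) x| ≤ G := fun i j =>
        hG s ⟨hs.1.le, hsb⟩ x (cube_sub hx) i j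
      have hij : ∀ i j, -(d s x j * pd j (fun y => u s y i) x * d s x i)
          ≤ G * ((d s x i ^ 2 + d s x j ^ 2) / 2) := by
        intro i j
        have h7 : -(d s x j * pd j (fun y => u s y i) x * d s x i)
            ≤ |pd j (fun y => u s y i) x| * |d s x i * d s x j| := by
          rw [← abs_mul]
          refine le_trans (neg_le_abs _) (le_of_eq ?_)
          congr 1
          ring
        refine h7.trans ?_
        have h8 : |d s x i * d s x j| ≤ (d s x i ^ 2 + d s x j ^ 2) / 2 := by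
          rw [abs_le]
          constructor <;> nlinarith [sq_nonneg (d s x i + d s x j), sq_nonneg (d s x i - d s x j)]
        exact mul_le_mul (hb' i j) h8 (abs_nonneg _) hG0
      simp only [Fin.sum_univ_three]
      have a00 := hij 0 0
      have a01 := hij 0 1
      have a02 := hij 0 2
      have a10 := hij 1 0
      have a11 := hij 1 1
      have a12 := hij 1 2
      have a20 := hij 2 0
      have a21 := hij 2 1
      have a22 := hij 2 2
      nlinarith
    linarith
  -- Gronwall
  set z : ℝ → ℝ := fun t => ipT (d t) (d t) * Real.exp (-(6 * G * t)) with hz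
  have hzd : ∀ s ∈ Ioo 0 T, HasDerivAt z ((2 * ∫ x in cube, ∑ i, FD T d (s, x) (1, 0) i * d s x i)
      * Real.exp (-(6 * G * s)) + ipT (d s) (d s) * (Real.exp (-(6 * G * s)) * (-(6 * G * 1)))) s := by
    intro s hs
    have h1 : HasDerivAt (fun t : ℝ => Real.exp (-(6 * G * t)))
        (Real.exp (-(6 * G * s)) * (-(6 * G * 1))) s :=
      (((hasDerivAt_id s).const_mul (6 * G)).neg).exp
    exact (hd s hs).mul h1
  have hsub : Icc 0 b ⊆ Ico 0 T := fun s hs => ⟨hs.1, hs.2.trans_lt hb.2⟩
  have hint : ∀ s ∈ interior (Icc 0 b), s ∈ Ioo 0 T ∧ s ≤ b := by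
    intro s hs
    rw [interior_Icc] at hs
    exact ⟨⟨hs.1, hs.2.trans hb.2⟩, hs.2.le⟩
  have hanti := antitoneOn_of_deriv_nonpos (f := z) (convex_Icc 0 b)
    ((hc.mono hsub).mul (by fun_prop))
    (fun s hs => (hzd s (hint s hs).1).differentiableAt.differentiableWithinAt)
    (fun s hs => by
      rw [(hzd s (hint s hs).1).deriv]
      have h1 := hbal s (hint s hs).1 (hint s hs).2
      have h2 := Real.exp_pos (-(6 * G * s))
      nlinarith)
  have h1 : z b ≤ z 0 := hanti ⟨le_rfl, hb.1⟩ ⟨hb.1, le_rfl⟩ hb.1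
  rw [hz] at h1
  simp only at h1
  rw [hy0, zero_mul] at h1
  have h2 : ipT (d b) (d b) ≤ 0 := by
    by_contra h
    exact absurd h1 (not_le.2 (mul_pos (not_le.1 h) (Real.exp_pos _)))
  have cd := slice_c1 hdC hb
  have hnn : ∀ x, 0 ≤ ∑ i, d b x i * d b x i := fun x =>
    Finset.sum_nonneg fun i _ => mul_self_nonneg _
  have h3 : ∫ x in cube, ∑ i, d b x i * d b x i = 0 :=
    le_antisymm h2 (setIntegral_nonneg cube_meas fun x _ => hnn x)
  have hcont : Continuous fun x => ∑ i, d b x i * d b x i :=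
    continuous_finsetSum _ fun i _ => (c1_comp cd i).continuous.mul (c1_comp cd i).continuous
  have hper : Per fun x => ∑ i, d b x i * d b x i := fun x k =>
    Finset.sum_congr rfl fun i _ => by
      rw [show d b (fun i => x i + 2 * Real.pi * k i) = d b x from hdC.per b hb x k]
  have h4 := zero_of_obox hcont hper (zero_of_int hcont (fun x _ => hnn x) h3)
  funext x
  have h5 := (Finset.sum_eq_zero_iff_of_nonneg fun i _ => mul_self_nonneg (d b x i)).1 (h4 x)
  have h6 : d b x = 0 := by
    funext i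
    exact mul_self_eq_zero.1 (h5 i (Finset.mem_univ i))
  exact sub_eq_zero.1 h6

end energy

end Pool.Agent.Run7.h308.T
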