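import Pool.Agent.Run7.h407.G.TorusDefs

/-!
Periodic functions on `ℝ³`: the divergence theorem, vanishing integrals.
-/

set_option autoImplicit false

open Set Filter Topology MeasureTheory
open scoped ContDiff

namespace Pool.Agent.Run7.h308.T

open Pool.Agent.Run7.h407 Pool.Agent.Run7.h407.G

/-- The closed box. -/
def box : Set V := Icc (fun _ => -Real.pi) (fun _ => Real.pi)

theorem cube_eq : cube = Set.pi univ fun _ : Fin 3 => Ico (-Real.pi) Real.pi := by
  ext x
  exact ⟨fun h i _ => ⟨(h i).1, (h i).2⟩, fun h i => ⟨(h i (mem_univ i)).1, (h i (mem_univ i)).2⟩⟩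

theorem cube_meas : MeasurableSet cube := by
  rw [cube_eq]
  exact MeasurableSet.univ_pi fun _ => measurableSet_Ico

theorem cube_ae : cube =ᵐ[volume] box := by
  rw [cube_eq]
  exact Measure.univ_pi_Ico_ae_eq_Icc (μ := fun _ : Fin 3 => (volume : Measure ℝ))

theorem cube_sub : cube ⊆ box := fun _ hx => ⟨fun i => (hx i).1, fun i => (hx i).2.le⟩

theorem box_compact : IsCompact box := isCompact_Icc

theorem int_eq {E : Type*} [NormedAddCommGroup E] [NormedSpace ℝ E] (f : V → E) :
    ∫ x in cube, f x = ∫ x in box, f x := setIntegral_congr_set cube_ae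

theorem int_cube {E : Type*} [NormedAddCommGroup E] {f : V → E} (hf : Continuous f) :
    IntegrableOn f cube :=
  (hf.continuousOn.integrableOn_compact box_compact).mono_set cube_sub

theorem int_mul {f g : V → ℝ} (hf : Continuous f) (hg : Continuous g) :
    Integrable (fun x => f x * g x) (volume.restrict cube) := int_cube (hf.mul hg)

theorem per_single {E : Type} {f : V → E} (hp : Per f) (j : Fin 3) (x : V) :
    f (x + Pi.single j (2 * Real.pi)) = f x := by
  rw [← hp x (Pi.single j 1)]
  congr 1
  funext i
  by_cases h : i = j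
  · subst h; simp
  · simp [Pi.single_eq_of_ne h]

/-- **TD.** -/
theorem td : StmTD := by
  intro f hf hp j
  have hd : Continuous (fun x => fderiv ℝ f x (Pi.single j 1)) :=
    (hf.continuous_fderiv one_ne_zero).clm_apply continuous_const
  have e0 : ∀ x, ∑ i, (if i = j then fderiv ℝ f x else 0) (Pi.single i (1 : ℝ))
      = fderiv ℝ f x (Pi.single j 1) := by
    intro x
    rw [Finset.sum_eq_single j]
    · rw [if_pos rfl]
    · intro i _ hij
      rw [if_neg hij]; rfl
    · intro h; exact absurd (Finset.mem_univ j) h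
  have h := integral_divergence_of_hasFDerivAt_off_countable' (n := 2)
    (fun _ => -Real.pi) (fun _ => Real.pi) (by
      intro i; have := Real.pi_pos; show -Real.pi ≤ Real.pi; linarith)
    (fun i x => if i = j then f x else 0)
    (fun i x => if i = j then fderiv ℝ f x else 0) ∅ countable_empty
    (fun i => by
      by_cases hi : i = j
      · simp only [hi, if_true]; exact hf.continuous.continuousOn
      · simp only [hi, if_false]; exact continuousOn_const)
    (fun x _ i => by
      by_cases hi : i = j
      · simp only [hi, if_true]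
        exact (hf.differentiable one_ne_zero x).hasFDerivAt
      · simp only [hi, if_false]; exact hasFDerivAt_const _ _)
    (by
      simp_rw [e0]
      exact hd.continuousOn.integrableOn_compact box_compact)
  simp_rw [e0] at h
  rw [int_eq]
  unfold pd box
  rw [h]
  refine Finset.sum_eq_zero fun i _ => ?_
  by_cases hi : i = j
  · subst hi
    simp only [if_true]
    rw [sub_eq_zero]
    congr 1
    funext x
    rw [← per_single hp i (i.insertNth (-Real.pi) x)]
    congr 1
    funext l
    rcases Fin.eq_self_or_eq_succAbove i l with rfl | ⟨m, rfl⟩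
    · simp
      ring
    · simp
  · simp only [hi, if_false]
    simp

/-- Every point is a translate of a point of the cube. -/
theorem exists_cube (x : V) : ∃ (y : V) (k : Fin 3 → ℤ), y ∈ cube ∧
    x = fun i => y i + 2 * Real.pi * k i := by
  have hpi := Real.pi_pos
  refine ⟨fun i => x i - 2 * Real.pi * ⌊(x i + Real.pi) / (2 * Real.pi)⌋,
    fun i => ⌊(x i + Real.pi) / (2 * Real.pi)⌋, fun i => ?_, ?_⟩
  · have h1 := Int.floor_le ((x i + Real.pi) / (2 * Real.pi))
    have h2 := Int.lt_floor_add_one ((x i + Real.pi) / (2 * Real.pi))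
    rw [le_div_iff₀ (by positivity)] at h1
    rw [div_lt_iff₀ (by positivity)] at h2
    constructor <;> simp only <;> linarith
  · funext i
    ring

/-- The open box. -/
def obox : Set V := Set.pi univ fun _ : Fin 3 => Ioo (-Real.pi) Real.pi

theorem obox_open : IsOpen obox := isOpen_set_pi finite_univ fun _ _ => isOpen_Ioo

theorem obox_sub : obox ⊆ cube := fun x hx i => by
  have h := hx i (mem_univ i)
  exact ⟨h.1.le, h.2⟩

theorem cube_closure : cube ⊆ closure obox := by
  intro x hx
  have hpi := Real.pi_pos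
  rw [obox, closure_pi_set]
  intro i _
  rw [closure_Ioo (by linarith)]
  exact ⟨(hx i).1, (hx i).2.le⟩

/-- A continuous periodic function which vanishes on the open box vanishes. -/
theorem zero_of_obox {f : V → ℝ} (hf : Continuous f) (hp : Per f) (h : ∀ x ∈ obox, f x = 0)
    (x : V) : f x = 0 := by
  obtain ⟨y, k, hy, rfl⟩ := exists_cube x
  rw [hp y k]
  have h1 : EqOn f (fun _ => 0) (closure obox) := EqOn.closure (fun x hx => h x hx) hf continuous_const
  exact h1 (cube_closure hy)

/-- A nonnegative continuous function with vanishing integral vanishes on the open box. -/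
theorem zero_of_int {f : V → ℝ} (hf : Continuous f) (h0 : ∀ x ∈ cube, 0 ≤ f x)
    (h : ∫ x in cube, f x = 0) : ∀ x ∈ obox, f x = 0 := by
  have h1 : f =ᵐ[volume.restrict cube] 0 := by
    refine (setIntegral_eq_zero_iff_of_nonneg_ae ?_ (int_cube hf)).1 h
    exact (ae_restrict_iff' cube_meas).2 (ae_of_all _ h0)
  have h2 : f =ᵐ[volume.restrict obox] 0 := ae_restrict_of_ae_restrict_of_subset obox_sub h1
  exact Measure.eqOn_open_of_ae_eq h2 obox_open hf.continuousOn continuousOn_const

theorem per_pd {f : V → ℝ} (hp : Per f) (j : Fin 3) : Per (pd j f) := by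
  intro x k
  have h1 : f = fun y => f (y + fun i => 2 * Real.pi * k i) := by
    funext y
    exact (hp y k).symm
  unfold pd
  have h2 : fderiv ℝ f (x + fun i => 2 * Real.pi * k i) = fderiv ℝ f x := by
    conv_rhs => rw [h1]
    rw [fderiv_comp_add_right]
  rw [← h2]
  rfl

theorem cont_pd {f : V → ℝ} (hf : ContDiff ℝ 1 f) (j : Fin 3) : Continuous (pd j f) :=
  (hf.continuous_fderiv one_ne_zero).clm_apply continuous_const

theorem c1_diff {f : V → ℝ} (hf : ContDiff ℝ 1 f) (x : V) : DifferentiableAt ℝ f x :=
  hf.differentiable one_ne_zero x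

/-- Integration by parts on the torus. -/
theorem ibpT {f g : V → ℝ} (hf : ContDiff ℝ 1 f) (hg : ContDiff ℝ 1 g) (pf : Per f) (pg : Per g)
    (j : Fin 3) : ∫ x in cube, f x * pd j g x = -∫ x in cube, pd j f x * g x := by
  have h := td (fun x => f x * g x) (hf.mul hg) (fun x k => by
    show f _ * g _ = f x * g x
    rw [pf x k, pg x k]) j
  have e : ∀ x, pd j (fun x => f x * g x) x = f x * pd j g x + pd j f x * g x := fun x =>
    pd_mul (c1_diff hf x) (c1_diff hg x) j
  simp_rw [e] at h
  rw [integral_add (int_mul hf.continuous (cont_pd hg j))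
    (int_mul (cont_pd hf j) hg.continuous)] at h
  linarith

theorem c1_comp {v : V → V} (hv : ContDiff ℝ 1 v) (i : Fin 3) : ContDiff ℝ 1 fun x => v x i :=
  contDiff_pi.1 hv i

theorem per_comp {v : V → V} (hv : Per v) (i : Fin 3) : Per fun x => v x i := fun x k =>
  congrFun (hv x k) i

theorem dvg_cont {v : V → V} (hv : ContDiff ℝ 1 v) : Continuous (dvg v) :=
  continuous_finsetSum _ fun i _ => cont_pd (c1_comp hv i) i

theorem dvg_per {v : V → V} (hv : Per v) : Per (dvg v) := fun x k =>
  Finset.sum_congr rfl fun i _ => per_pd (per_comp hv i) i x k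

/-- `∫ v · ∇ φ = - ∫ φ div v`. -/
theorem grad_dvg {v : V → V} (hv : ContDiff ℝ 1 v) (pv : Per v) {φ : V → ℝ}
    (hφ : ContDiff ℝ 1 φ) (pφ : Per φ) :
    ∫ x in cube, ∑ i, v x i * pd i φ x = -∫ x in cube, dvg v x * φ x := by
  rw [integral_finsetSum _ fun i _ => int_mul (c1_comp hv i).continuous (cont_pd hφ i)]
  rw [Finset.sum_congr rfl fun i _ => ibpT (c1_comp hv i) hφ (per_comp pv i) pφ i,
    Finset.sum_neg_distrib, ← integral_finsetSum _ fun i _ =>
      int_mul (cont_pd (c1_comp hv i) i) hφ.continuous]
  congr 1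
  refine integral_congr_ae (ae_of_all _ fun x => ?_)
  show _ = dvg v x * φ x
  unfold dvg
  rw [Finset.sum_mul]

/-- A smooth periodic bump. -/
noncomputable def bump (x₀ : V) (c : ℝ) (x : V) : ℝ :=
  ∏ i, Real.smoothTransition (Real.cos (x i - x₀ i) - c)

theorem bump_smooth (x₀ : V) (c : ℝ) : ContDiff ℝ ∞ (bump x₀ c) := by
  refine contDiff_prod fun i _ => ?_
  refine Real.smoothTransition.contDiff.comp ?_
  exact (Real.contDiff_cos.comp ((contDiff_apply ℝ ℝ i).sub contDiff_const)).sub contDiff_const

theorem bump_per (x₀ : V) (c : ℝ) : Per (bump x₀ c) := by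
  intro x k
  refine Finset.prod_congr rfl fun i _ => ?_
  have e : x i + 2 * Real.pi * k i - x₀ i = x i - x₀ i + k i * (2 * Real.pi) := by ring
  show Real.smoothTransition (Real.cos (x i + 2 * Real.pi * k i - x₀ i) - c) = _
  rw [e, Real.cos_add_int_mul_two_pi]

theorem bump_nonneg (x₀ : V) (c : ℝ) (x : V) : 0 ≤ bump x₀ c x :=
  Finset.prod_nonneg fun _ _ => Real.smoothTransition.nonneg _

/-- A continuous function whose integrals against all smooth periodic functions vanish is zero on
the open box. -/
theorem zero_of_test {g : V → ℝ} (hg : Continuous g)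
    (h : ∀ φ : V → ℝ, ContDiff ℝ ∞ φ → Per φ → ∫ x in cube, g x * φ x = 0) :
    ∀ x ∈ obox, g x = 0 := by
  have hpi := Real.pi_pos
  -- it suffices to exclude positive values
  have key : ∀ f : V → ℝ, Continuous f →
      (∀ φ : V → ℝ, ContDiff ℝ ∞ φ → Per φ → ∫ x in cube, f x * φ x = 0) →
      ∀ x ∈ obox, f x ≤ 0 := by
    intro f hf hft x₀ hx₀
    by_contra hlt
    push Not at hlt
    obtain ⟨ε, hε, hball⟩ : ∃ ε > 0, ∀ x, dist x x₀ < ε → 0 < f x := by
      have := (hf.continuousAt (x := x₀)).eventually (lt_mem_nhds hlt)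
      exact Metric.eventually_nhds_iff.1 this
    -- the size of the bump
    obtain ⟨ρ, hρ, hρb⟩ : ∃ ρ > 0, ∀ x, dist x x₀ < ρ → x ∈ obox :=
      Metric.isOpen_iff.1 obox_open x₀ hx₀
    set r : ℝ := min (min (ε / 2) (ρ / 2)) (Real.pi / 2) with hr
    have hr0 : 0 < r := by positivity
    have hr1 : r < ε := by
      have : r ≤ ε / 2 := (min_le_left _ _).trans (min_le_left _ _)
      linarith
    have hr2 : r < ρ := by
      have : r ≤ ρ / 2 := (min_le_left _ _).trans (min_le_right _ _)
      linarith
    have hr3 : r ≤ Real.pi / 2 := min_le_right _ _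
    have hx₀r : ∀ i, |x₀ i| ≤ Real.pi - r := by
      intro i
      have h1 : x₀ + Pi.single i r ∈ obox := hρb _ (by
        rw [dist_eq_norm, add_sub_cancel_left, Pi.norm_single, Real.norm_of_nonneg hr0.le]
        exact hr2)
      have h2 : x₀ - Pi.single i r ∈ obox := hρb _ (by
        rw [dist_eq_norm, sub_sub_cancel_left, norm_neg, Pi.norm_single,
          Real.norm_of_nonneg hr0.le]
        exact hr2)
      have h3 := (h1 i (mem_univ i)).2
      have h4 := (h2 i (mem_univ i)).1
      simp only [Pi.add_apply, Pi.sub_apply, Pi.single_eq_same] at h3 h4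
      rw [abs_le]
      constructor <;> linarith
    have hsupp : ∀ x ∈ cube, bump x₀ (Real.cos r) x ≠ 0 → 0 < f x := by
      intro x hx hb
      refine hball x (lt_of_le_of_lt ?_ hr1)
      rw [dist_pi_le_iff hr0.le]
      intro i
      have h1 : Real.smoothTransition (Real.cos (x i - x₀ i) - Real.cos r) ≠ 0 :=
        (Finset.prod_ne_zero_iff.1 hb) i (Finset.mem_univ i)
      have h2 : 0 < Real.cos (x i - x₀ i) - Real.cos r := by
        by_contra h3
        exact h1 (Real.smoothTransition.zero_of_nonpos (not_lt.1 h3))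
      rw [Real.dist_eq]
      by_contra h4
      push Not at h4
      have h5 := hx i
      have h6 := hx₀r i
      rw [abs_le] at h6
      have h7 : |x i - x₀ i| ≤ 2 * Real.pi - r := by
        rw [abs_le]
        constructor <;> linarith
      have h8 : Real.cos (x i - x₀ i) ≤ Real.cos r := by
        rw [← Real.cos_abs (x i - x₀ i)]
        rcases le_total |x i - x₀ i| Real.pi with h9 | h9
        · exact Real.cos_le_cos_of_nonneg_of_le_pi hr0.le h9 h4.le
        · rw [← Real.cos_two_pi_sub |x i - x₀ i|]
          exact Real.cos_le_cos_of_nonneg_of_le_pi hr0.le (by linarith) (by linarith)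
      linarith
    have hz := hft _ (bump_smooth x₀ (Real.cos r)) (bump_per x₀ (Real.cos r))
    have hz2 := zero_of_int (f := fun x => f x * bump x₀ (Real.cos r) x)
      (hf.mul (bump_smooth x₀ _).continuous) (fun x hx => by
        by_cases hb : bump x₀ (Real.cos r) x = 0
        · show 0 ≤ f x * bump x₀ (Real.cos r) x
          rw [hb, mul_zero]
        · exact mul_nonneg (hsupp x hx hb).le (bump_nonneg _ _ _)) hz x₀ hx₀
    have hb0 : 0 < bump x₀ (Real.cos r) x₀ := by
      refine Finset.prod_pos fun i _ => ?_
      refine Real.smoothTransition.pos_of_pos ?_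
      rw [sub_self, Real.cos_zero, sub_pos]
      have := Real.cos_lt_cos_of_nonneg_of_le_pi_div_two le_rfl hr3 hr0
      rwa [Real.cos_zero] at this
    exact absurd hz2 (mul_pos hlt hb0).ne'
  intro x hx
  refine le_antisymm (key g hg h x hx) ?_
  have := key (fun x => -g x) hg.neg (fun φ h1 h2 => by
    have := h φ h1 h2
    simp_rw [neg_mul]
    rw [integral_neg, this, neg_zero]) x hx
  linarith

/-- **TW.** -/
theorem tw : StmTW := by
  intro v hv pv
  constructor
  · intro hw
    refine zero_of_obox (dvg_cont hv) (dvg_per pv) (zero_of_test (dvg_cont hv) fun φ h1 h2 => ?_)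
    have h3 := hw φ h1 h2
    rw [grad_dvg hv pv (h1.of_le (by norm_cast)) h2] at h3
    linarith
  · intro hd φ h1 h2
    rw [grad_dvg hv pv (h1.of_le (by norm_cast)) h2]
    simp only [hd, zero_mul, integral_zero, neg_zero]

end Pool.Agent.Run7.h308.T
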